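import Pool.Agent.helper14.NR.E12b.PN3

/-!
Generated: certificates.
-/

namespace Pool.Agent.helper14.NR.E12b

open Pool.Agent.helper31.IA (Z)
open Pool.Agent.helper31.IX (Op XOps runX Cov CovD cov_split covD_split)
open Pool.Agent.helper31.IC (TD)
open Pool.Agent.helper63.RG (reloc)
open Pool.Agent.helper63.NF hiding TD
open Pool.Agent.helper14.CF (xE covD_E)
open Pool.Agent.helper14.NR (share)

mutual
theorem A3_c0_t7 : CovD 1 gA3 [(59556233216, 4581490688), (309237645312, 34359738368), (687194767360, 687194767360)] :=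
  covD_E kA3_eq (.n 2 (.n 2 (.n 2 (.n 2 (.l 0) (.l 0)) (.n 2 (.l 0) (.l 0))) (.n 2 (.n 2 (.l 0) (.l 0)) (.n 0 (.l 0) (.l 0)))) (.n 0 (.n 2 (.n 2 (.l 0) (.l 0)) (.n 2 (.l 0) (.l 0))) (.n 2 (.n 2 (.l 0) (.l 0)) (.n 2 (.l 0) (.l 0)))))
    [(59556233216, 4581490688), (309237645312, 34359738368), (687194767360, 687194767360)] rfl (by decide +kernel)
theorem A3_c0_t8 : CovD 1 gA3 [(59556233216, 4581490688), (309237645312, 34359738368), (2061584302080, 687194767360)] :=
  covD_E kA3_eq (.n 2 (.n 2 (.n 2 (.l 0) (.l 0)) (.n 0 (.l 0) (.l 0))) (.n 0 (.n 2 (.l 0) (.l 0)) (.n 2 (.l 0) (.l 0))))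
    [(59556233216, 4581490688), (309237645312, 34359738368), (2061584302080, 687194767360)] rfl (by decide +kernel)
end

mutual
theorem A3_c0_t10 : CovD 1 gA3 [(59556233216, 4581490688), (377957122048, 34359738368), (687194767360, 687194767360)] :=
  covD_E kA3_eq (.n 2 (.n 2 (.n 2 (.n 2 (.l 0) (.l 0)) (.n 2 (.l 0) (.l 0))) (.n 0 (.n 2 (.l 0) (.l 0)) (.n 2 (.l 0) (.l 0)))) (.n 2 (.n 2 (.l 0) (.n 0 (.l 0) (.l 0))) (.n 2 (.n 0 (.l 0) (.l 0)) (.l 0))))
    [(59556233216, 4581490688), (377957122048, 34359738368), (687194767360, 687194767360)] rfl (by decide +kernel)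
theorem A3_c0_t11 : CovD 1 gA3 [(59556233216, 4581490688), (377957122048, 34359738368), (2061584302080, 687194767360)] :=
  covD_E kA3_eq (.n 2 (.n 2 (.n 2 (.l 0) (.l 0)) (.n 0 (.l 0) (.l 0))) (.n 2 (.l 0) (.l 0)))
    [(59556233216, 4581490688), (377957122048, 34359738368), (2061584302080, 687194767360)] rfl (by decide +kernel)
end

mutual
theorem A3_c0_t13 : CovD 1 gA3 [(57265487872, 2290745344), (343597383680, 68719476736), (4123168604160, 1374389534720)] :=
  covD_E kA3_eq (.n 2 (.n 1 (.n 2 (.l 0) (.l 0)) (.n 2 (.l 0) (.l 0))) (.n 2 (.n 2 (.n 2 (.n 0 (.l 0) (.l 0)) (.n 2 (.n 0 (.l 1) (.l 0)) (.l 1))) (.l 1)) (.l 1)))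
    [(57265487872, 2290745344), (343597383680, 68719476736), (4123168604160, 1374389534720)] rfl (by decide +kernel)
theorem A3_c0_t14 : CovD 1 gA3 [(61846978560, 2290745344), (343597383680, 68719476736), (4123168604160, 1374389534720)] :=
  covD_E kA3_eq (.n 2 (.n 1 (.n 2 (.l 0) (.l 0)) (.n 2 (.l 0) (.l 0))) (.n 2 (.n 2 (.n 0 (.n 1 (.l 0) (.l 0)) (.l 0)) (.l 1)) (.l 1)))
    [(61846978560, 2290745344), (343597383680, 68719476736), (4123168604160, 1374389534720)] rfl (by decide +kernel)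
end

mutual
theorem A3_c0_t15 : CovD 1 gA3 [(59556233216, 4581490688), (343597383680, 68719476736), (8246337208320, 2748779069440)] :=
  covD_E kA3_eq (.n 2 (.n 2 (.n 0 (.l 1) (.l 1)) (.l 1)) (.n 0 (.l 1) (.l 1)))
    [(59556233216, 4581490688), (343597383680, 68719476736), (8246337208320, 2748779069440)] rfl (by decide +kernel)
theorem A3_c0_t20 : CovD 1 gA3 [(68719214592, 4581490688), (309237645312, 34359738368), (687194767360, 687194767360)] :=
  covD_E kA3_eq (.n 2 (.n 2 (.n 2 (.n 2 (.l 0) (.l 0)) (.n 2 (.l 0) (.l 0))) (.n 2 (.n 2 (.l 0) (.l 0)) (.n 0 (.l 0) (.l 0)))) (.n 0 (.n 2 (.n 2 (.l 0) (.l 0)) (.n 2 (.l 0) (.l 0))) (.n 2 (.n 2 (.l 0) (.l 0)) (.n 2 (.l 0) (.l 0)))))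
    [(68719214592, 4581490688), (309237645312, 34359738368), (687194767360, 687194767360)] rfl (by decide +kernel)
end

mutual
theorem A3_c0_t21 : CovD 1 gA3 [(68719214592, 4581490688), (309237645312, 34359738368), (2061584302080, 687194767360)] :=
  covD_E kA3_eq (.n 2 (.n 2 (.n 2 (.l 0) (.l 0)) (.n 0 (.l 0) (.l 0))) (.n 2 (.n 0 (.l 0) (.l 0)) (.l 0)))
    [(68719214592, 4581490688), (309237645312, 34359738368), (2061584302080, 687194767360)] rfl (by decide +kernel)
theorem A3_c0_t22 : CovD 1 gA3 [(68719214592, 4581490688), (309237645312, 34359738368), (4123168604160, 1374389534720)] :=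
  covD_E kA3_eq (.n 2 (.n 0 (.n 2 (.l 0) (.l 0)) (.n 2 (.l 0) (.l 0))) (.n 2 (.n 0 (.n 2 (.l 0) (.l 1)) (.n 2 (.l 0) (.n 0 (.l 1) (.l 0)))) (.l 1)))
    [(68719214592, 4581490688), (309237645312, 34359738368), (4123168604160, 1374389534720)] rfl (by decide +kernel)
end

mutual
theorem A3_c0_t25 : CovD 1 gA3 [(68719214592, 4581490688), (377957122048, 34359738368), (687194767360, 687194767360)] :=
  covD_E kA3_eq (.n 2 (.n 2 (.n 2 (.n 2 (.l 0) (.l 0)) (.n 2 (.l 0) (.l 0))) (.n 0 (.n 2 (.l 0) (.l 0)) (.n 2 (.l 0) (.l 0)))) (.n 2 (.n 2 (.l 0) (.l 0)) (.n 2 (.l 0) (.l 0))))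
    [(68719214592, 4581490688), (377957122048, 34359738368), (687194767360, 687194767360)] rfl (by decide +kernel)
theorem A3_c0_t26 : CovD 1 gA3 [(68719214592, 4581490688), (377957122048, 34359738368), (2061584302080, 687194767360)] :=
  covD_E kA3_eq (.n 2 (.n 0 (.n 2 (.l 0) (.l 0)) (.n 2 (.l 0) (.l 0))) (.n 2 (.l 0) (.l 0)))
    [(68719214592, 4581490688), (377957122048, 34359738368), (2061584302080, 687194767360)] rfl (by decide +kernel)
end

mutual
theorem A3_c0_t27 : CovD 1 gA3 [(68719214592, 4581490688), (377957122048, 34359738368), (4123168604160, 1374389534720)] :=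
  covD_E kA3_eq (.n 2 (.n 2 (.n 0 (.l 0) (.l 0)) (.l 0)) (.n 2 (.n 2 (.l 0) (.n 0 (.l 1) (.n 0 (.l 1) (.l 0)))) (.l 1)))
    [(68719214592, 4581490688), (377957122048, 34359738368), (4123168604160, 1374389534720)] rfl (by decide +kernel)
theorem A3_c0_t28 : CovD 1 gA3 [(68719214592, 4581490688), (343597383680, 68719476736), (8246337208320, 2748779069440)] :=
  covD_E kA3_eq (.n 2 (.n 2 (.l 1) (.l 1)) (.n 0 (.l 1) (.l 1)))
    [(68719214592, 4581490688), (343597383680, 68719476736), (8246337208320, 2748779069440)] rfl (by decide +kernel)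
end

mutual
theorem A3_c0_t34 : CovD 1 gA3 [(77882195968, 4581490688), (309237645312, 34359738368), (687194767360, 687194767360)] :=
  covD_E kA3_eq (.n 2 (.n 2 (.n 2 (.n 2 (.l 0) (.l 0)) (.n 2 (.l 0) (.l 0))) (.n 2 (.n 2 (.l 0) (.l 0)) (.n 0 (.l 0) (.l 0)))) (.n 0 (.n 2 (.n 2 (.l 0) (.l 0)) (.n 2 (.l 0) (.l 0))) (.n 2 (.n 2 (.l 0) (.l 0)) (.n 2 (.l 0) (.l 0)))))
    [(77882195968, 4581490688), (309237645312, 34359738368), (687194767360, 687194767360)] rfl (by decide +kernel)
theorem A3_c0_t35 : CovD 1 gA3 [(77882195968, 4581490688), (309237645312, 34359738368), (2061584302080, 687194767360)] :=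
  covD_E kA3_eq (.n 2 (.n 2 (.n 2 (.l 0) (.l 0)) (.n 0 (.l 0) (.l 0))) (.n 2 (.l 0) (.l 0)))
    [(77882195968, 4581490688), (309237645312, 34359738368), (2061584302080, 687194767360)] rfl (by decide +kernel)
end

mutual
theorem A3_c0_t36 : CovD 1 gA3 [(77882195968, 4581490688), (309237645312, 34359738368), (4123168604160, 1374389534720)] :=
  covD_E kA3_eq (.n 2 (.n 0 (.n 2 (.l 0) (.l 0)) (.n 2 (.l 0) (.l 0))) (.n 2 (.n 0 (.n 0 (.l 0) (.l 0)) (.l 0)) (.l 1)))
    [(77882195968, 4581490688), (309237645312, 34359738368), (4123168604160, 1374389534720)] rfl (by decide +kernel)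
theorem A3_c0_t39 : CovD 1 gA3 [(77882195968, 4581490688), (377957122048, 34359738368), (687194767360, 687194767360)] :=
  covD_E kA3_eq (.n 2 (.n 2 (.n 2 (.n 0 (.l 0) (.l 0)) (.n 2 (.l 0) (.l 0))) (.n 0 (.n 2 (.l 0) (.l 0)) (.n 2 (.l 0) (.l 0)))) (.n 2 (.n 2 (.l 0) (.l 0)) (.n 2 (.l 0) (.l 0))))
    [(77882195968, 4581490688), (377957122048, 34359738368), (687194767360, 687194767360)] rfl (by decide +kernel)
end

mutual
theorem A3_c0_t40 : CovD 1 gA3 [(77882195968, 4581490688), (377957122048, 34359738368), (2061584302080, 687194767360)] :=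
  covD_E kA3_eq (.n 2 (.n 2 (.n 0 (.l 0) (.l 0)) (.l 0)) (.n 2 (.l 0) (.l 0)))
    [(77882195968, 4581490688), (377957122048, 34359738368), (2061584302080, 687194767360)] rfl (by decide +kernel)
theorem A3_c0_t41 : CovD 1 gA3 [(77882195968, 4581490688), (377957122048, 34359738368), (4123168604160, 1374389534720)] :=
  covD_E kA3_eq (.n 2 (.n 2 (.n 0 (.l 0) (.l 0)) (.l 0)) (.n 2 (.n 0 (.l 0) (.l 0)) (.l 1)))
    [(77882195968, 4581490688), (377957122048, 34359738368), (4123168604160, 1374389534720)] rfl (by decide +kernel)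
end

mutual
theorem A3_c0_t42 : CovD 1 gA3 [(77882195968, 4581490688), (343597383680, 68719476736), (8246337208320, 2748779069440)] :=
  covD_E kA3_eq (.n 2 (.n 2 (.n 0 (.l 1) (.l 1)) (.l 1)) (.l 1))
    [(77882195968, 4581490688), (343597383680, 68719476736), (8246337208320, 2748779069440)] rfl (by decide +kernel)
theorem A3_c0_t47 : CovD 1 gA3 [(87045177344, 4581490688), (309237645312, 34359738368), (687194767360, 687194767360)] :=
  covD_E kA3_eq (.n 2 (.n 2 (.n 2 (.n 2 (.l 0) (.l 0)) (.n 2 (.l 0) (.l 0))) (.n 2 (.n 2 (.l 0) (.l 0)) (.n 0 (.l 0) (.l 0)))) (.n 0 (.n 2 (.n 2 (.l 0) (.l 0)) (.n 2 (.l 0) (.l 0))) (.n 2 (.n 2 (.l 0) (.l 0)) (.n 2 (.l 0) (.l 0)))))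
    [(87045177344, 4581490688), (309237645312, 34359738368), (687194767360, 687194767360)] rfl (by decide +kernel)
end

mutual
theorem A3_c0_t48 : CovD 1 gA3 [(87045177344, 4581490688), (309237645312, 34359738368), (2061584302080, 687194767360)] :=
  covD_E kA3_eq (.n 2 (.n 2 (.n 2 (.l 0) (.l 0)) (.n 0 (.l 0) (.l 0))) (.n 2 (.l 0) (.l 0)))
    [(87045177344, 4581490688), (309237645312, 34359738368), (2061584302080, 687194767360)] rfl (by decide +kernel)
theorem A3_c0_t50 : CovD 1 gA3 [(87045177344, 4581490688), (377957122048, 34359738368), (687194767360, 687194767360)] :=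
  covD_E kA3_eq (.n 2 (.n 2 (.n 2 (.n 0 (.l 0) (.l 0)) (.n 2 (.l 0) (.l 0))) (.n 0 (.n 2 (.l 0) (.l 0)) (.n 2 (.l 0) (.l 0)))) (.n 2 (.n 2 (.l 0) (.l 0)) (.n 2 (.l 0) (.l 0))))
    [(87045177344, 4581490688), (377957122048, 34359738368), (687194767360, 687194767360)] rfl (by decide +kernel)
end

mutual
theorem A3_c0_t51 : CovD 1 gA3 [(87045177344, 4581490688), (377957122048, 34359738368), (2061584302080, 687194767360)] :=
  covD_E kA3_eq (.n 2 (.n 2 (.n 0 (.l 0) (.l 0)) (.l 0)) (.n 2 (.l 0) (.l 0)))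
    [(87045177344, 4581490688), (377957122048, 34359738368), (2061584302080, 687194767360)] rfl (by decide +kernel)
theorem A3_c0_t52 : CovD 1 gA3 [(87045177344, 4581490688), (343597383680, 68719476736), (4123168604160, 1374389534720)] :=
  covD_E kA3_eq (.n 2 (.n 1 (.n 0 (.n 2 (.l 0) (.l 0)) (.n 2 (.l 0) (.l 0))) (.n 2 (.n 0 (.l 0) (.l 0)) (.l 0))) (.n 2 (.n 1 (.l 0) (.l 0)) (.n 2 (.n 1 (.l 0) (.l 0)) (.l 1))))
    [(87045177344, 4581490688), (343597383680, 68719476736), (4123168604160, 1374389534720)] rfl (by decide +kernel)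
end

mutual
theorem A3_c0_t53 : CovD 1 gA3 [(87045177344, 4581490688), (343597383680, 68719476736), (8246337208320, 2748779069440)] :=
  covD_E kA3_eq (.n 2 (.n 2 (.n 0 (.l 1) (.l 1)) (.l 1)) (.l 1))
    [(87045177344, 4581490688), (343597383680, 68719476736), (8246337208320, 2748779069440)] rfl (by decide +kernel)
theorem A3_c0_t60 : CovD 1 gA3 [(59556233216, 4581490688), (446676598784, 34359738368), (687194767360, 687194767360)] :=
  covD_E kA3_eq (.n 2 (.n 0 (.n 2 (.n 2 (.l 0) (.l 0)) (.n 2 (.l 0) (.l 0))) (.n 2 (.n 2 (.l 0) (.l 0)) (.n 2 (.l 0) (.l 0)))) (.n 2 (.n 2 (.l 0) (.l 0)) (.n 2 (.l 0) (.l 0))))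
    [(59556233216, 4581490688), (446676598784, 34359738368), (687194767360, 687194767360)] rfl (by decide +kernel)
end

mutual
theorem A3_c0_t61 : CovD 1 gA3 [(59556233216, 4581490688), (446676598784, 34359738368), (2061584302080, 687194767360)] :=
  covD_E kA3_eq (.n 2 (.n 0 (.n 2 (.l 0) (.l 0)) (.n 2 (.l 0) (.l 0))) (.n 2 (.l 0) (.l 0)))
    [(59556233216, 4581490688), (446676598784, 34359738368), (2061584302080, 687194767360)] rfl (by decide +kernel)
theorem A3_c0_t63 : CovD 1 gA3 [(59556233216, 4581490688), (515396075520, 34359738368), (687194767360, 687194767360)] :=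
  covD_E kA3_eq (.n 2 (.n 0 (.n 2 (.n 2 (.l 0) (.l 0)) (.n 2 (.l 0) (.l 0))) (.n 2 (.n 2 (.l 0) (.l 0)) (.n 2 (.l 0) (.l 0)))) (.n 2 (.n 2 (.l 0) (.l 0)) (.n 2 (.l 0) (.l 0))))
    [(59556233216, 4581490688), (515396075520, 34359738368), (687194767360, 687194767360)] rfl (by decide +kernel)
end

mutual
theorem A3_c0_t64 : CovD 1 gA3 [(59556233216, 4581490688), (515396075520, 34359738368), (2061584302080, 687194767360)] :=
  covD_E kA3_eq (.n 2 (.n 0 (.n 2 (.l 0) (.l 0)) (.n 2 (.l 0) (.l 0))) (.n 2 (.l 0) (.l 0)))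
    [(59556233216, 4581490688), (515396075520, 34359738368), (2061584302080, 687194767360)] rfl (by decide +kernel)
theorem A3_c0_t65 : CovD 1 gA3 [(59556233216, 4581490688), (481036337152, 68719476736), (4123168604160, 1374389534720)] :=
  covD_E kA3_eq (.n 2 (.n 1 (.n 2 (.n 0 (.l 0) (.l 0)) (.l 0)) (.n 2 (.n 0 (.l 0) (.l 0)) (.l 0))) (.n 2 (.n 0 (.n 2 (.n 2 (.l 0) (.n 0 (.n 0 (.l 1) (.l 0)) (.l 0))) (.l 1)) (.n 2 (.n 0 (.l 0) (.l 0)) (.l 1))) (.l 1)))
    [(59556233216, 4581490688), (481036337152, 68719476736), (4123168604160, 1374389534720)] rfl (by decide +kernel)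
end

mutual
theorem A3_c0_t66 : CovD 1 gA3 [(59556233216, 4581490688), (481036337152, 68719476736), (8246337208320, 2748779069440)] :=
  covD_E kA3_eq (.n 2 (.n 2 (.l 1) (.l 1)) (.n 0 (.l 1) (.l 1)))
    [(59556233216, 4581490688), (481036337152, 68719476736), (8246337208320, 2748779069440)] rfl (by decide +kernel)
theorem A3_c0_t70 : CovD 1 gA3 [(68719214592, 4581490688), (446676598784, 34359738368), (1374389534720, 1374389534720)] :=
  covD_E kA3_eq (.n 2 (.n 2 (.n 2 (.n 0 (.n 2 (.l 0) (.l 0)) (.n 2 (.l 0) (.l 0))) (.n 2 (.n 0 (.l 0) (.l 0)) (.l 0))) (.n 2 (.n 2 (.l 0) (.l 0)) (.n 2 (.l 0) (.l 0)))) (.n 2 (.n 2 (.n 0 (.l 0) (.l 0)) (.l 0)) (.n 2 (.l 0) (.l 0))))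
    [(68719214592, 4581490688), (446676598784, 34359738368), (1374389534720, 1374389534720)] rfl (by decide +kernel)
end

mutual
theorem A3_c0_t71 : CovD 1 gA3 [(68719214592, 4581490688), (515396075520, 34359738368), (1374389534720, 1374389534720)] :=
  covD_E kA3_eq (.n 2 (.n 2 (.n 2 (.n 0 (.n 2 (.l 0) (.l 0)) (.n 2 (.l 0) (.l 0))) (.n 2 (.n 0 (.l 0) (.l 0)) (.l 0))) (.n 2 (.n 2 (.l 0) (.l 0)) (.n 2 (.l 0) (.l 0)))) (.n 2 (.n 2 (.n 0 (.l 0) (.l 0)) (.l 0)) (.n 2 (.l 0) (.l 0))))
    [(68719214592, 4581490688), (515396075520, 34359738368), (1374389534720, 1374389534720)] rfl (by decide +kernel)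
theorem A3_c0_t72 : CovD 1 gA3 [(68719214592, 4581490688), (481036337152, 68719476736), (4123168604160, 1374389534720)] :=
  covD_E kA3_eq (.n 2 (.n 1 (.n 2 (.n 0 (.l 0) (.l 0)) (.l 0)) (.n 2 (.l 0) (.l 0))) (.n 2 (.n 0 (.n 2 (.l 0) (.n 0 (.l 1) (.l 1))) (.n 2 (.l 0) (.n 2 (.l 0) (.l 1)))) (.l 1)))
    [(68719214592, 4581490688), (481036337152, 68719476736), (4123168604160, 1374389534720)] rfl (by decide +kernel)
end

mutual
theorem A3_c0_t73 : CovD 1 gA3 [(68719214592, 4581490688), (481036337152, 68719476736), (8246337208320, 2748779069440)] :=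
  covD_E kA3_eq (.n 2 (.n 2 (.l 1) (.l 1)) (.l 1))
    [(68719214592, 4581490688), (481036337152, 68719476736), (8246337208320, 2748779069440)] rfl (by decide +kernel)
theorem A3_c0_t78 : CovD 1 gA3 [(77882195968, 4581490688), (446676598784, 34359738368), (1374389534720, 1374389534720)] :=
  covD_E kA3_eq (.n 2 (.n 2 (.n 2 (.n 0 (.n 2 (.l 0) (.l 0)) (.n 2 (.l 0) (.l 0))) (.n 2 (.n 0 (.l 0) (.l 0)) (.l 0))) (.n 2 (.n 2 (.l 0) (.l 0)) (.n 0 (.l 0) (.l 0)))) (.n 2 (.n 2 (.n 0 (.l 0) (.l 0)) (.l 0)) (.n 2 (.l 0) (.l 0))))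
    [(77882195968, 4581490688), (446676598784, 34359738368), (1374389534720, 1374389534720)] rfl (by decide +kernel)
end

mutual
theorem A3_c0_t79 : CovD 1 gA3 [(77882195968, 4581490688), (515396075520, 34359738368), (1374389534720, 1374389534720)] :=
  covD_E kA3_eq (.n 2 (.n 2 (.n 2 (.n 0 (.n 2 (.l 0) (.l 0)) (.n 2 (.l 0) (.l 0))) (.n 2 (.n 0 (.l 0) (.l 0)) (.l 0))) (.n 2 (.n 2 (.l 0) (.l 0)) (.n 0 (.l 0) (.l 0)))) (.n 2 (.n 2 (.n 0 (.l 0) (.l 0)) (.l 0)) (.n 0 (.l 0) (.l 0))))
    [(77882195968, 4581490688), (515396075520, 34359738368), (1374389534720, 1374389534720)] rfl (by decide +kernel)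
theorem A3_c0_t80 : CovD 1 gA3 [(77882195968, 4581490688), (481036337152, 68719476736), (4123168604160, 1374389534720)] :=
  covD_E kA3_eq (.n 2 (.n 1 (.n 2 (.l 0) (.l 0)) (.n 2 (.l 0) (.l 0))) (.n 0 (.n 2 (.l 0) (.l 1)) (.n 2 (.l 0) (.l 1))))
    [(77882195968, 4581490688), (481036337152, 68719476736), (4123168604160, 1374389534720)] rfl (by decide +kernel)
end

mutual
theorem A3_c0_t81 : CovD 1 gA3 [(77882195968, 4581490688), (481036337152, 68719476736), (8246337208320, 2748779069440)] :=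
  covD_E kA3_eq (.n 2 (.n 2 (.l 1) (.l 1)) (.l 1))
    [(77882195968, 4581490688), (481036337152, 68719476736), (8246337208320, 2748779069440)] rfl (by decide +kernel)
theorem A3_c0_t85 : CovD 1 gA3 [(87045177344, 4581490688), (446676598784, 34359738368), (1374389534720, 1374389534720)] :=
  covD_E kA3_eq (.n 2 (.n 2 (.n 2 (.n 0 (.n 2 (.l 0) (.l 0)) (.n 2 (.l 0) (.l 0))) (.n 2 (.n 0 (.l 0) (.l 0)) (.l 0))) (.n 2 (.n 2 (.l 0) (.l 0)) (.n 0 (.l 0) (.l 0)))) (.n 2 (.n 2 (.l 0) (.l 0)) (.n 0 (.l 0) (.l 0))))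
    [(87045177344, 4581490688), (446676598784, 34359738368), (1374389534720, 1374389534720)] rfl (by decide +kernel)
end

mutual
theorem A3_c0_t86 : CovD 1 gA3 [(87045177344, 4581490688), (446676598784, 34359738368), (4123168604160, 1374389534720)] :=
  covD_E kA3_eq (.n 2 (.n 2 (.l 0) (.l 0)) (.n 0 (.n 2 (.l 0) (.l 0)) (.l 0)))
    [(87045177344, 4581490688), (446676598784, 34359738368), (4123168604160, 1374389534720)] rfl (by decide +kernel)
theorem A3_c0_t88 : CovD 1 gA3 [(87045177344, 4581490688), (515396075520, 34359738368), (1374389534720, 1374389534720)] :=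
  covD_E kA3_eq (.n 2 (.n 2 (.n 2 (.n 0 (.n 2 (.l 0) (.l 0)) (.n 2 (.l 0) (.l 0))) (.n 2 (.n 0 (.l 0) (.l 0)) (.l 0))) (.n 2 (.n 2 (.l 0) (.l 0)) (.n 0 (.l 0) (.l 0)))) (.n 2 (.n 2 (.l 0) (.l 0)) (.n 0 (.l 0) (.l 0))))
    [(87045177344, 4581490688), (515396075520, 34359738368), (1374389534720, 1374389534720)] rfl (by decide +kernel)
end

mutual
theorem A3_c0_t89 : CovD 1 gA3 [(87045177344, 4581490688), (515396075520, 34359738368), (4123168604160, 1374389534720)] :=
  covD_E kA3_eq (.n 2 (.n 2 (.l 0) (.l 0)) (.n 2 (.l 0) (.l 0)))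
    [(87045177344, 4581490688), (515396075520, 34359738368), (4123168604160, 1374389534720)] rfl (by decide +kernel)
theorem A3_c0_t90 : CovD 1 gA3 [(87045177344, 4581490688), (481036337152, 68719476736), (8246337208320, 2748779069440)] :=
  covD_E kA3_eq (.n 2 (.n 2 (.l 1) (.l 1)) (.l 1))
    [(87045177344, 4581490688), (481036337152, 68719476736), (8246337208320, 2748779069440)] rfl (by decide +kernel)
end

mutual
theorem B3_c0_t2 : CovD 1 gB3 [(59556233216, 4581490688), (412316860416, 137438953472), (54975791104, 54975791104)] :=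
  covD_E kB3_eq (.n 1 (.n 2 (.n 2 (.n 2 (.l 1) (.l 1)) (.n 2 (.l 1) (.l 1))) (.n 2 (.n 0 (.l 1) (.l 1)) (.l 1))) (.n 2 (.n 2 (.n 2 (.l 1) (.l 1)) (.n 0 (.l 1) (.l 1))) (.n 2 (.n 0 (.l 1) (.l 1)) (.l 1))))
    [(59556233216, 4581490688), (412316860416, 137438953472), (54975791104, 54975791104)] rfl (by decide +kernel)
theorem B3_c0_t3 : CovD 1 gB3 [(68719214592, 4581490688), (412316860416, 137438953472), (54975791104, 54975791104)] :=
  covD_E kB3_eq (.n 1 (.n 2 (.n 0 (.n 2 (.l 1) (.l 1)) (.n 2 (.l 1) (.l 1))) (.n 2 (.n 0 (.l 1) (.l 1)) (.l 1))) (.n 2 (.n 2 (.l 1) (.l 1)) (.n 2 (.l 1) (.l 1))))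
    [(68719214592, 4581490688), (412316860416, 137438953472), (54975791104, 54975791104)] rfl (by decide +kernel)
end

mutual
theorem B3_c0_t4 : CovD 1 gB3 [(82463686656, 9162981376), (412316860416, 137438953472), (54975791104, 54975791104)] :=
  covD_E kB3_eq (.n 0 (.n 1 (.n 2 (.n 2 (.l 1) (.l 1)) (.n 2 (.l 1) (.l 1))) (.n 2 (.n 2 (.l 1) (.l 1)) (.n 2 (.l 1) (.l 1)))) (.n 1 (.n 2 (.n 2 (.l 1) (.l 1)) (.n 2 (.l 1) (.l 1))) (.n 2 (.n 2 (.l 1) (.l 1)) (.n 2 (.l 1) (.l 1)))))
    [(82463686656, 9162981376), (412316860416, 137438953472), (54975791104, 54975791104)] rfl (by decide +kernel)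
theorem D3_c0_t1 : CovD 1 gD3 [(64137723904, 9162981376), (412316860416, 137438953472), (863554764800, 863554764800)] :=
  covD_E kD3_eq (.n 1 (.n 2 (.n 2 (.l 0) (.n 0 (.l 0) (.l 0))) (.n 0 (.n 2 (.l 0) (.l 0)) (.n 2 (.l 0) (.l 0)))) (.n 0 (.n 2 (.n 2 (.l 0) (.l 0)) (.n 2 (.l 0) (.l 0))) (.n 2 (.n 2 (.l 0) (.l 0)) (.n 2 (.l 0) (.l 0)))))
    [(64137723904, 9162981376), (412316860416, 137438953472), (863554764800, 863554764800)] rfl (by decide +kernel)
end

mutual
theorem D3_c0_t2 : CovD 1 gD3 [(82463686656, 9162981376), (412316860416, 137438953472), (863554764800, 863554764800)] :=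
  covD_E kD3_eq (.n 1 (.n 2 (.n 2 (.l 0) (.n 0 (.l 0) (.l 0))) (.n 0 (.n 2 (.l 0) (.l 0)) (.n 2 (.l 0) (.l 0)))) (.n 2 (.n 2 (.l 0) (.n 0 (.l 0) (.l 0))) (.n 0 (.n 2 (.l 0) (.l 0)) (.n 2 (.l 0) (.l 0)))))
    [(82463686656, 9162981376), (412316860416, 137438953472), (863554764800, 863554764800)] rfl (by decide +kernel)
theorem E3_c0_t4 : CovD 1 gE3 [(57265487872, 2290745344), (412316860416, 137438953472), (431777382400, 431777382400)] :=
  covD_E kE3_eq (.n 1 (.n 2 (.l 1) (.n 2 (.n 2 (.n 0 (.l 0) (.l 0)) (.l 0)) (.n 0 (.l 0) (.l 0)))) (.n 2 (.l 1) (.n 2 (.n 2 (.l 0) (.l 0)) (.l 0))))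
    [(57265487872, 2290745344), (412316860416, 137438953472), (431777382400, 431777382400)] rfl (by decide +kernel)
end

mutual
theorem E3_c0_t5 : CovD 1 gE3 [(61846978560, 2290745344), (412316860416, 137438953472), (431777382400, 431777382400)] :=
  covD_E kE3_eq (.n 1 (.n 2 (.l 1) (.n 2 (.n 2 (.l 0) (.l 0)) (.l 0))) (.n 2 (.l 1) (.n 2 (.n 2 (.l 0) (.l 0)) (.l 0))))
    [(61846978560, 2290745344), (412316860416, 137438953472), (431777382400, 431777382400)] rfl (by decide +kernel)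
theorem E3_c0_t6 : CovD 1 gE3 [(68719214592, 4581490688), (412316860416, 137438953472), (431777382400, 431777382400)] :=
  covD_E kE3_eq (.n 1 (.n 2 (.l 1) (.n 2 (.n 2 (.l 1) (.l 0)) (.l 0))) (.n 2 (.l 1) (.n 2 (.n 0 (.l 1) (.l 1)) (.l 0))))
    [(68719214592, 4581490688), (412316860416, 137438953472), (431777382400, 431777382400)] rfl (by decide +kernel)
end

mutual
theorem E3_c0_t7 : CovD 1 gE3 [(82463686656, 9162981376), (412316860416, 137438953472), (431777382400, 431777382400)] :=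
  covD_E kE3_eq (.n 1 (.n 2 (.l 1) (.n 0 (.n 2 (.l 1) (.l 0)) (.n 0 (.l 1) (.l 1)))) (.n 2 (.l 1) (.n 0 (.n 2 (.l 1) (.l 0)) (.n 0 (.l 1) (.l 1)))))
    [(82463686656, 9162981376), (412316860416, 137438953472), (431777382400, 431777382400)] rfl (by decide +kernel)
theorem E3_c0_t9 : CovD 1 gE3 [(64137723904, 9162981376), (412316860416, 137438953472), (1295332147200, 431777382400)] :=
  covD_E kE3_eq (.n 1 (.n 0 (.n 2 (.n 2 (.l 0) (.l 0)) (.l 0)) (.n 2 (.n 2 (.l 0) (.l 0)) (.l 0))) (.n 2 (.n 2 (.n 0 (.l 0) (.l 0)) (.l 0)) (.n 0 (.l 0) (.l 0))))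
    [(64137723904, 9162981376), (412316860416, 137438953472), (1295332147200, 431777382400)] rfl (by decide +kernel)
end

theorem E3_c0_t10 : CovD 1 gE3 [(82463686656, 9162981376), (412316860416, 137438953472), (1295332147200, 431777382400)] :=
  covD_E kE3_eq (.n 1 (.n 2 (.n 0 (.n 2 (.l 0) (.l 0)) (.n 2 (.l 0) (.l 0))) (.n 2 (.l 0) (.l 0))) (.n 2 (.n 2 (.n 0 (.l 0) (.l 0)) (.l 0)) (.n 2 (.l 0) (.l 0))))
    [(82463686656, 9162981376), (412316860416, 137438953472), (1295332147200, 431777382400)] rfl (by decide +kernel)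

theorem A3_c0_t6 : CovD 1 gA3 [(59556233216, 4581490688), (309237645312, 34359738368), (1374389534720, 1374389534720)] :=
  covD_split 2 (by decide +kernel) A3_c0_t7 A3_c0_t8

theorem A3_c0_t9 : CovD 1 gA3 [(59556233216, 4581490688), (377957122048, 34359738368), (1374389534720, 1374389534720)] :=
  covD_split 2 (by decide +kernel) A3_c0_t10 A3_c0_t11

theorem A3_c0_t5 : CovD 1 gA3 [(59556233216, 4581490688), (343597383680, 68719476736), (1374389534720, 1374389534720)] :=
  covD_split 1 (by decide +kernel) A3_c0_t6 A3_c0_t9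

theorem A3_c0_t12 : CovD 1 gA3 [(59556233216, 4581490688), (343597383680, 68719476736), (4123168604160, 1374389534720)] :=
  covD_split 0 (by decide +kernel) A3_c0_t13 A3_c0_t14

theorem A3_c0_t4 : CovD 1 gA3 [(59556233216, 4581490688), (343597383680, 68719476736), (2748779069440, 2748779069440)] :=
  covD_split 2 (by decide +kernel) A3_c0_t5 A3_c0_t12

theorem A3_c0_t3 : CovD 1 gA3 [(59556233216, 4581490688), (343597383680, 68719476736), (5497558138880, 5497558138880)] :=
  covD_split 2 (by decide +kernel) A3_c0_t4 A3_c0_t15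

theorem A3_c0_t19 : CovD 1 gA3 [(68719214592, 4581490688), (309237645312, 34359738368), (1374389534720, 1374389534720)] :=
  covD_split 2 (by decide +kernel) A3_c0_t20 A3_c0_t21

theorem A3_c0_t18 : CovD 1 gA3 [(68719214592, 4581490688), (309237645312, 34359738368), (2748779069440, 2748779069440)] :=
  covD_split 2 (by decide +kernel) A3_c0_t19 A3_c0_t22

theorem A3_c0_t24 : CovD 1 gA3 [(68719214592, 4581490688), (377957122048, 34359738368), (1374389534720, 1374389534720)] :=
  covD_split 2 (by decide +kernel) A3_c0_t25 A3_c0_t26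

theorem A3_c0_t23 : CovD 1 gA3 [(68719214592, 4581490688), (377957122048, 34359738368), (2748779069440, 2748779069440)] :=
  covD_split 2 (by decide +kernel) A3_c0_t24 A3_c0_t27

theorem A3_c0_t17 : CovD 1 gA3 [(68719214592, 4581490688), (343597383680, 68719476736), (2748779069440, 2748779069440)] :=
  covD_split 1 (by decide +kernel) A3_c0_t18 A3_c0_t23

theorem A3_c0_t16 : CovD 1 gA3 [(68719214592, 4581490688), (343597383680, 68719476736), (5497558138880, 5497558138880)] :=
  covD_split 2 (by decide +kernel) A3_c0_t17 A3_c0_t28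

theorem A3_c0_t2 : CovD 1 gA3 [(64137723904, 9162981376), (343597383680, 68719476736), (5497558138880, 5497558138880)] :=
  covD_split 0 (by decide +kernel) A3_c0_t3 A3_c0_t16

theorem A3_c0_t33 : CovD 1 gA3 [(77882195968, 4581490688), (309237645312, 34359738368), (1374389534720, 1374389534720)] :=
  covD_split 2 (by decide +kernel) A3_c0_t34 A3_c0_t35

theorem A3_c0_t32 : CovD 1 gA3 [(77882195968, 4581490688), (309237645312, 34359738368), (2748779069440, 2748779069440)] :=
  covD_split 2 (by decide +kernel) A3_c0_t33 A3_c0_t36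

theorem A3_c0_t38 : CovD 1 gA3 [(77882195968, 4581490688), (377957122048, 34359738368), (1374389534720, 1374389534720)] :=
  covD_split 2 (by decide +kernel) A3_c0_t39 A3_c0_t40

theorem A3_c0_t37 : CovD 1 gA3 [(77882195968, 4581490688), (377957122048, 34359738368), (2748779069440, 2748779069440)] :=
  covD_split 2 (by decide +kernel) A3_c0_t38 A3_c0_t41

theorem A3_c0_t31 : CovD 1 gA3 [(77882195968, 4581490688), (343597383680, 68719476736), (2748779069440, 2748779069440)] :=
  covD_split 1 (by decide +kernel) A3_c0_t32 A3_c0_t37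

theorem A3_c0_t30 : CovD 1 gA3 [(77882195968, 4581490688), (343597383680, 68719476736), (5497558138880, 5497558138880)] :=
  covD_split 2 (by decide +kernel) A3_c0_t31 A3_c0_t42

theorem A3_c0_t46 : CovD 1 gA3 [(87045177344, 4581490688), (309237645312, 34359738368), (1374389534720, 1374389534720)] :=
  covD_split 2 (by decide +kernel) A3_c0_t47 A3_c0_t48

theorem A3_c0_t49 : CovD 1 gA3 [(87045177344, 4581490688), (377957122048, 34359738368), (1374389534720, 1374389534720)] :=
  covD_split 2 (by decide +kernel) A3_c0_t50 A3_c0_t51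

theorem A3_c0_t45 : CovD 1 gA3 [(87045177344, 4581490688), (343597383680, 68719476736), (1374389534720, 1374389534720)] :=
  covD_split 1 (by decide +kernel) A3_c0_t46 A3_c0_t49

theorem A3_c0_t44 : CovD 1 gA3 [(87045177344, 4581490688), (343597383680, 68719476736), (2748779069440, 2748779069440)] :=
  covD_split 2 (by decide +kernel) A3_c0_t45 A3_c0_t52

theorem A3_c0_t43 : CovD 1 gA3 [(87045177344, 4581490688), (343597383680, 68719476736), (5497558138880, 5497558138880)] :=
  covD_split 2 (by decide +kernel) A3_c0_t44 A3_c0_t53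

theorem A3_c0_t29 : CovD 1 gA3 [(82463686656, 9162981376), (343597383680, 68719476736), (5497558138880, 5497558138880)] :=
  covD_split 0 (by decide +kernel) A3_c0_t30 A3_c0_t43

theorem A3_c0_t1 : CovD 1 gA3 [(73300705280, 18325962752), (343597383680, 68719476736), (5497558138880, 5497558138880)] :=
  covD_split 0 (by decide +kernel) A3_c0_t2 A3_c0_t29

theorem A3_c0_t59 : CovD 1 gA3 [(59556233216, 4581490688), (446676598784, 34359738368), (1374389534720, 1374389534720)] :=
  covD_split 2 (by decide +kernel) A3_c0_t60 A3_c0_t61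

theorem A3_c0_t62 : CovD 1 gA3 [(59556233216, 4581490688), (515396075520, 34359738368), (1374389534720, 1374389534720)] :=
  covD_split 2 (by decide +kernel) A3_c0_t63 A3_c0_t64

theorem A3_c0_t58 : CovD 1 gA3 [(59556233216, 4581490688), (481036337152, 68719476736), (1374389534720, 1374389534720)] :=
  covD_split 1 (by decide +kernel) A3_c0_t59 A3_c0_t62

theorem A3_c0_t57 : CovD 1 gA3 [(59556233216, 4581490688), (481036337152, 68719476736), (2748779069440, 2748779069440)] :=
  covD_split 2 (by decide +kernel) A3_c0_t58 A3_c0_t65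

theorem A3_c0_t56 : CovD 1 gA3 [(59556233216, 4581490688), (481036337152, 68719476736), (5497558138880, 5497558138880)] :=
  covD_split 2 (by decide +kernel) A3_c0_t57 A3_c0_t66

theorem A3_c0_t69 : CovD 1 gA3 [(68719214592, 4581490688), (481036337152, 68719476736), (1374389534720, 1374389534720)] :=
  covD_split 1 (by decide +kernel) A3_c0_t70 A3_c0_t71

theorem A3_c0_t68 : CovD 1 gA3 [(68719214592, 4581490688), (481036337152, 68719476736), (2748779069440, 2748779069440)] :=
  covD_split 2 (by decide +kernel) A3_c0_t69 A3_c0_t72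

theorem A3_c0_t67 : CovD 1 gA3 [(68719214592, 4581490688), (481036337152, 68719476736), (5497558138880, 5497558138880)] :=
  covD_split 2 (by decide +kernel) A3_c0_t68 A3_c0_t73

theorem A3_c0_t55 : CovD 1 gA3 [(64137723904, 9162981376), (481036337152, 68719476736), (5497558138880, 5497558138880)] :=
  covD_split 0 (by decide +kernel) A3_c0_t56 A3_c0_t67

theorem A3_c0_t77 : CovD 1 gA3 [(77882195968, 4581490688), (481036337152, 68719476736), (1374389534720, 1374389534720)] :=
  covD_split 1 (by decide +kernel) A3_c0_t78 A3_c0_t79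

theorem A3_c0_t76 : CovD 1 gA3 [(77882195968, 4581490688), (481036337152, 68719476736), (2748779069440, 2748779069440)] :=
  covD_split 2 (by decide +kernel) A3_c0_t77 A3_c0_t80

theorem A3_c0_t75 : CovD 1 gA3 [(77882195968, 4581490688), (481036337152, 68719476736), (5497558138880, 5497558138880)] :=
  covD_split 2 (by decide +kernel) A3_c0_t76 A3_c0_t81

theorem A3_c0_t84 : CovD 1 gA3 [(87045177344, 4581490688), (446676598784, 34359738368), (2748779069440, 2748779069440)] :=
  covD_split 2 (by decide +kernel) A3_c0_t85 A3_c0_t86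

theorem A3_c0_t87 : CovD 1 gA3 [(87045177344, 4581490688), (515396075520, 34359738368), (2748779069440, 2748779069440)] :=
  covD_split 2 (by decide +kernel) A3_c0_t88 A3_c0_t89

theorem A3_c0_t83 : CovD 1 gA3 [(87045177344, 4581490688), (481036337152, 68719476736), (2748779069440, 2748779069440)] :=
  covD_split 1 (by decide +kernel) A3_c0_t84 A3_c0_t87

theorem A3_c0_t82 : CovD 1 gA3 [(87045177344, 4581490688), (481036337152, 68719476736), (5497558138880, 5497558138880)] :=
  covD_split 2 (by decide +kernel) A3_c0_t83 A3_c0_t90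

theorem A3_c0_t74 : CovD 1 gA3 [(82463686656, 9162981376), (481036337152, 68719476736), (5497558138880, 5497558138880)] :=
  covD_split 0 (by decide +kernel) A3_c0_t75 A3_c0_t82

theorem A3_c0_t54 : CovD 1 gA3 [(73300705280, 18325962752), (481036337152, 68719476736), (5497558138880, 5497558138880)] :=
  covD_split 0 (by decide +kernel) A3_c0_t55 A3_c0_t74

theorem A3_c0 : CovD 1 gA3 [(73300705280, 18325962752), (412316860416, 137438953472), (5497558138880, 5497558138880)] :=
  covD_split 1 (by decide +kernel) A3_c0_t1 A3_c0_t54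

theorem B3_c0_t1 : CovD 1 gB3 [(64137723904, 9162981376), (412316860416, 137438953472), (54975791104, 54975791104)] :=
  covD_split 0 (by decide +kernel) B3_c0_t2 B3_c0_t3

theorem B3_c0 : CovD 1 gB3 [(73300705280, 18325962752), (412316860416, 137438953472), (54975791104, 54975791104)] :=
  covD_split 0 (by decide +kernel) B3_c0_t1 B3_c0_t4

theorem D3_c0 : CovD 1 gD3 [(73300705280, 18325962752), (412316860416, 137438953472), (863554764800, 863554764800)] :=
  covD_split 0 (by decide +kernel) D3_c0_t1 D3_c0_t2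

theorem E3_c0_t3 : CovD 1 gE3 [(59556233216, 4581490688), (412316860416, 137438953472), (431777382400, 431777382400)] :=
  covD_split 0 (by decide +kernel) E3_c0_t4 E3_c0_t5

theorem E3_c0_t2 : CovD 1 gE3 [(64137723904, 9162981376), (412316860416, 137438953472), (431777382400, 431777382400)] :=
  covD_split 0 (by decide +kernel) E3_c0_t3 E3_c0_t6

theorem E3_c0_t1 : CovD 1 gE3 [(73300705280, 18325962752), (412316860416, 137438953472), (431777382400, 431777382400)] :=
  covD_split 0 (by decide +kernel) E3_c0_t2 E3_c0_t7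

theorem E3_c0_t8 : CovD 1 gE3 [(73300705280, 18325962752), (412316860416, 137438953472), (1295332147200, 431777382400)] :=
  covD_split 0 (by decide +kernel) E3_c0_t9 E3_c0_t10

theorem E3_c0 : CovD 1 gE3 [(73300705280, 18325962752), (412316860416, 137438953472), (863554764800, 863554764800)] :=
  covD_split 2 (by decide +kernel) E3_c0_t1 E3_c0_t8

end Pool.Agent.helper14.NR.E12b
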