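import Pool.Agent.helper63.NF.Cert

/-!
Generated: table E12b.
-/

namespace Pool.Agent.helper14.NR.E12b

open Pool.Agent.helper63.NF

def tab : TD where
  strip := false
  bm := none
  ec := 73282879488
  bc := 412316860416
  H := [[[-62290204736, 42653256320, -10438862464, -128743502976], [-1336694736576, 133834567360, -168623261760], [2314062411072, 9675905099328], [61420628566208]], [[10032545152, -3772834624, 1450381696], [176245253056, -103003568960], [-244730094720]], [[-1218819328, 60194304], [-14979076288]], [[79991232]], [[-2672832]]]
  pol := some ⟨-1296543252480, -9723805958144, 5872294035456, 31362867265536, [[111349984384, -333646687616], [2942890439168, 0]], [[2074972256256, 266099936768], [41271047369024, 0]]⟩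
  a := [[[261462949888, 49903763456, -1564402253824, 1186120007680], [-428878200832, -6955906367488]], [[134345588736, -61096329216, -567819567104, 1214052696064], [559149416448, -1937254318080]], [[109394264064, -58246168576, -426243784704, 1036747341824], [485720260608, -1583640215552]], [[88883265536, -39813906432, -286820466688, 420435460096], [368971284480, -1387080843264]], [[70998818816, -24008785920, -177539710976, -23084204032], [259589996544, -1183331319808]], [[55834378240, -12540182528, -96583483392, -222904385536], [166292291584, -984897159168]]]
  j := [6322191859712, 11957188952064, 10857677324288, 9208409882624, 6734508720128, 3435973836800]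
  c := [879662989312, 879662989312, 659814350848, 549755813888, 439697276928, 329907175424]
  M := [[[[1104607576064, 33989787648, 26594443264], [-219744960512, 1809294098432], [8677893013504]], [[89300795392, 16244670464], [4399961866240]], [[417449902080, -18816368640], [-527949168640]], [[-290411642880]], [[77675757568]], [[95384961024]]], [[[1094612418560, 17530748928, 24997593088], [648833531904]], [[44116082688, 148242432], [564406779904]], [[-1906442240]], [[209321984]]], [[[1096503525376, 18972540928, 36207132672], [462951874560]], [[42918084608, 637403136], [544525582336]], [[-1541210112]], [[145358848]]], [[[1097976119296, 22676373504, 57574686720], [318397808640]], [[42126409728, 326959104], [548736270336]], [[-1339031552]], [[105644032]]], [[[1099062378496, 23957798912, 57205063680], [223390990336]], [[41795256320, 470614016], [549939838976]], [[-1285554176]], [[94765056]]], [[[1097851928576, 21268791296, 48621879296], [126929928192]], [[42804445184, 838205440], [566294675456]], [[-1519779840]], [[119406592]]]]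
  l0 := [[[3544902105216, 162639814528, -1057372800], [3301407761472, -886754682816], [-23566533889856]], [[878428793536, -395813407232, -196826146496], [-17061081654592, -1354542460736], [30309647524800]], [[442183180288, 454984893120], [-7346245242560]], [[-1799749170624, -267325489984], [326072709952]], [[3912411289024, 73844477952], [-11403408628800]], [[-4663960787968]], [[3045500594304]], [[-1193364288768]]]
  q0 := [[99345958336, 300031710976, 103738829376, -259728569344], [1269986719808, 5538195157440, -5576764609024], [32758219672576, -51578743539328], [-1344056746298368]]
  t := [[[1816966201344, 538808483840, -3162309984256, 9205022392320], [-7206589104128, -9513227190272]], [[720077193216, -197008752640, 1701592956928, 3184506699776], [1896372961280, 12771417915392]], [[683540807680, -63516704768, 1121668431872, 2186769661952], [2477415989248, 9234463129600]], [[645641338880, 173556039680, 512021168128, -3003559444480], [2946424569856, 6734801600512]], [[628040990720, 344146837504, -153224413184, -2803474956288], [3629098663936, 4472379604992]], [[628862025728, 581702647808, -684844711936, -3200572719104], [4515586048000, 4074274553856]]]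
  y := [12130061385728, 13715978059776, 14667313315840, 14780056207360, 14086418989056, 12847320924160]
  sc := [0, 0, 0, 0, 0, 0]
  L := [(0, 2), (0, 3), (1, 1), (1, 2), (2, 0), (2, 1), (3, 0)]
  Lt := [(0, 2), (0, 3), (1, 1)]
  far := 1
  x2 := 10775213113344
  B1 := 659706347520
  C2 := 1327712154624
  f1 := 769658138624
  f2 := 0
  f3 := 0
  is1 := 8796093022208
  s1 := 137438953472

end Pool.Agent.helper14.NR.E12b
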